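import Pool.Agent.Q257.DT.Ct

/-!
# Project DT, job TSM: behaviour of the high generations
-/

set_option autoImplicit false

namespace Pool.Agent.Q257.DT

open Set Filter Topology MeasureTheory Pool.Agent.Q186.DT

theorem sg_bound {K : ℕ} {g k : ℝ} (hK : 1 ≤ K) (hg : 1 ≤ g) (hk : 0 < k) :
    0 ≤ sg K g k ∧ g * (K * sg K g k) ≤ k / 100 ∧ sg K g k ≤ k / 2 := by
  have hK' : (1 : ℝ) ≤ K := by exact_mod_cast hK
  have hKg : 1 ≤ (K : ℝ) * g := by nlinarith
  have h0 : 0 < 1000 * ((K : ℝ) * g) * (K * g + 2) := by positivity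
  have h1 : sg K g k * (1000 * ((K : ℝ) * g) * (K * g + 2)) = k := by
    rw [sg, div_mul_cancel₀ _ h0.ne']
  have h2 : 0 ≤ sg K g k := by rw [sg]; positivity
  refine ⟨h2, ?_, ?_⟩
  · have h3 : 0 ≤ sg K g k * (K * g) := by positivity
    have h4 : 0 ≤ sg K g k * (K * g) * (K * g) := by positivity
    nlinarith
  · have h3 : 0 ≤ sg K g k * (K * g - 1) := mul_nonneg h2 (by linarith)
    have h4 : 0 ≤ sg K g k * (K * g) * (K * g - 1) := mul_nonneg (by positivity) (by linarith)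
    nlinarith

variable {K : ℕ} {L g k T EF M : ℝ} {m : ℕ} {F V : Nd K → ℝ → ℝ} {h : ℕ → ℝ}

/-- comparison with a linear equation -/
theorem cmp (hK : 1 ≤ K) (hL : 1 < L) (hg : 1 ≤ g) (hk : 0 < k) (hF : Frc L g T EF F h)
    (hV : Sol L g k T F V) (hR : RC g k T M m V) (w : Nd K) (hw : m ≤ w.length + 1) {t1 A : ℝ}
    (h1 : 0 ≤ t1) (hA : ∀ t ∈ Icc t1 T, |pr V w t| ≤ A) (t : ℝ) (ht : t ∈ Icc t1 T) :
    |V w t| ≤ Real.exp (-(99 / 100 * k * L ^ w.length * (t - t1))) * |V w t1| +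
      (A ^ 2 + h w.length) / (99 / 100 * k) := by
  set κ : ℝ := 99 / 100 * k with hκ
  have hκ0 : 0 < κ := by positivity
  set n := w.length with hn
  have hLn : 0 < L ^ n := by positivity
  obtain ⟨s0, s1, s2⟩ := sg_bound hK hg hk
  have hsub : ∀ x ∈ Icc t1 T, x ∈ Icc 0 T := fun x hx => ⟨h1.trans hx.1, hx.2⟩
  have hA0 : 0 ≤ A := (abs_nonneg _).trans (hA t ht)
  have hr : ∀ x ∈ Icc t1 T, κ ≤ g * ch V w x + k := by
    intro x hx
    have h2 : -(K * sg K g k) ≤ ch V w x := by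
      have : ∑ _i : Fin K, (-sg K g k) ≤ ∑ i : Fin K, V (i :: w) x :=
        Finset.sum_le_sum fun i _ => hR.lo (i :: w) (by rw [List.length_cons]; exact hw) x
          (hsub x hx)
      simpa [ch] using this
    have h3 : g * (-(K * sg K g k)) ≤ g * ch V w x := mul_le_mul_of_nonneg_left h2 (by linarith)
    rw [hκ]
    linarith
  have hp : ∀ x ∈ Icc t1 T, pr V w x ^ 2 ≤ A ^ 2 := by
    intro x hx
    have := hA x hx
    rw [← sq_abs]
    exact pow_le_pow_left₀ (abs_nonneg _) this 2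
  have hFb : ∀ x ∈ Icc t1 T, |F w x| ≤ L ^ n * h n := fun x hx => hF.bd w x (hsub x hx)
  have hhn : 0 ≤ h n := hF.nonneg n
  have hcont : ContinuousOn (V w) (Icc t1 T) :=
    (Sol.cont hV w).mono (Icc_subset_Icc h1 le_rfl)
  have hder : ∀ x ∈ Ico t1 T, HasDerivWithinAt (V w) (vf L g k F V w x) (Ici x) x := by
    intro x hx
    refine (hV w x ⟨h1.trans hx.1, hx.2.le⟩).mono_of_mem_nhdsWithin ?_
    exact Icc_mem_nhdsGE_of_mem ⟨h1.trans hx.1, hx.2⟩
  set b : ℝ := (A ^ 2 + h n) / κ with hb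
  have hbκ : κ * b = A ^ 2 + h n := by rw [hb, mul_div_cancel₀ _ hκ0.ne']
  have hb0 : 0 ≤ b := by positivity
  refine le_of_forall_pos_le_add fun η hη => ?_
  set B : ℝ → ℝ := fun x => Real.exp (-(κ * L ^ n * (x - t1))) * |V w t1| + b + η with hB
  have hBc : ContinuousOn B (Icc t1 T) := by
    have : Continuous B := by fun_prop
    exact this.continuousOn
  have hBd : ∀ x, HasDerivAt B (-(κ * L ^ n) * (B x - b - η)) x := by
    intro x
    have h3 : HasDerivAt (fun x : ℝ => -(κ * L ^ n * (x - t1))) (-(κ * L ^ n * 1)) x :=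
      (((hasDerivAt_id x).sub_const t1).const_mul (κ * L ^ n)).neg
    have h4 := ((h3.exp.mul_const |V w t1|).add_const b).add_const η
    refine h4.congr_deriv ?_
    simp only [hB]
    ring
  have hB0 : ∀ x, 0 < B x := by
    intro x
    have : 0 ≤ Real.exp (-(κ * L ^ n * (x - t1))) * |V w t1| := by positivity
    simp only [hB]
    linarith
  have hB1 : B t1 = |V w t1| + b + η := by simp [hB]
  have hkey : ∀ x ∈ Icc t1 T, L ^ n * (A ^ 2 + h n - (g * ch V w x + k) * B x) <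
      -(κ * L ^ n) * (B x - b - η) := by
    intro x hx
    have h5 := mul_le_mul_of_nonneg_right (hr x hx) (hB0 x).le
    have h6 : A ^ 2 + h n - (g * ch V w x + k) * B x < -κ * (B x - b - η) := by
      have : 0 < κ * η := by positivity
      nlinarith
    calc L ^ n * (A ^ 2 + h n - (g * ch V w x + k) * B x) < L ^ n * (-κ * (B x - b - η)) :=
          mul_lt_mul_of_pos_left h6 hLn
      _ = _ := by ring
  have up : V w t ≤ B t := by
    refine image_le_of_deriv_right_lt_deriv_boundary' hcont hder ?_ hBc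
      (fun x _ => (hBd x).hasDerivWithinAt) ?_ ht
    · rw [hB1]; linarith [le_abs_self (V w t1)]
    · intro x hx he
      have hx' : x ∈ Icc t1 T := ⟨hx.1, hx.2.le⟩
      refine lt_of_le_of_lt ?_ (hkey x hx')
      rw [vf, ← hn, he]
      have h7 := mul_le_mul_of_nonneg_left (hp x hx') hLn.le
      have h8 := (abs_le.1 (hFb x hx')).2
      nlinarith
  have dn : -V w t ≤ B t := by
    refine image_le_of_deriv_right_lt_deriv_boundary' (f := fun x => -V w x) hcont.neg
      (fun x hx => (hder x hx).neg) ?_ hBc (fun x _ => (hBd x).hasDerivWithinAt) ?_ ht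
    · rw [hB1]; linarith [neg_le_abs (V w t1)]
    · intro x hx he
      have hx' : x ∈ Icc t1 T := ⟨hx.1, hx.2.le⟩
      refine lt_of_le_of_lt ?_ (hkey x hx')
      have he' : V w x = -B x := by linarith
      rw [vf, ← hn, he']
      have h7 : 0 ≤ L ^ n * pr V w x ^ 2 := by positivity
      have h8 := (abs_le.1 (hFb x hx')).1
      have h9 : 0 ≤ L ^ n * A ^ 2 := by positivity
      nlinarith
  rw [abs_le]
  simp only [hB] at up dn
  constructor <;> linarith

/-- the hypothesis on the initial times -/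
def HD (L k T : ℝ) (τ : ℕ → ℝ) (V : Nd K → ℝ → ℝ) (n : ℕ) (ε : ℝ) : Prop :=
  ∀ w : Nd K, w.length = n + 1 → ∀ t ∈ Icc (τ (n + 1)) T,
    Real.exp (-(99 / 100 * k * L ^ (n + 1) * (t - τ n))) * |V w (τ n)| ≤ ε

theorem step (hK : 1 ≤ K) (hL : 1 < L) (hg : 1 ≤ g) (hk : 0 < k) (hF : Frc L g T EF F h)
    (hV : Sol L g k T F V) (hR : RC g k T M m V) {τ : ℕ → ℝ} (hτ0 : ∀ n, 0 ≤ τ n)
    (hτm : ∀ n, τ n ≤ τ (n + 1)) {n : ℕ} (hn : m ≤ n) {A ε : ℝ}
    (hA : ∀ w : Nd K, w.length = n → ∀ t ∈ Icc (τ n) T, |V w t| ≤ A)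
    (hD : HD L k T τ V n ε) (w : Nd K) (hw : w.length = n + 1) (t : ℝ)
    (ht : t ∈ Icc (τ (n + 1)) T) :
    |V w t| ≤ ε + (A ^ 2 + h (n + 1)) / (99 / 100 * k) := by
  have ht' : t ∈ Icc (τ n) T := ⟨(hτm n).trans ht.1, ht.2⟩
  have h1 := cmp hK hL hg hk hF hV hR w (by omega) (hτ0 n) (A := A) (by
    intro x hx
    cases w with
    | nil => simp at hw
    | cons i u => exact hA u (by simpa using hw) x hx) t ht'
  rw [hw] at h1
  have h2 := hD w hw t ht
  linarith

/-- first qualitative statement -/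
theorem G1 (hK : 1 ≤ K) (hL : 1 < L) (hg : 1 ≤ g) (hk : 0 < k) (hF : Frc L g T EF F h)
    (hV : Sol L g k T F V) (hR : RC g k T M m V) {τ : ℕ → ℝ} (hτ0 : ∀ n, 0 ≤ τ n)
    (hτm : ∀ n, τ n ≤ τ (n + 1))
    (hD : ∀ ε : ℝ, 0 < ε → ∃ m' : ℕ, ∀ n, m' ≤ n → HD L k T τ V n ε) (ε : ℝ) (hε : 0 < ε) :
    ∃ m' : ℕ, ∀ w : Nd K, m' ≤ w.length → ∀ t ∈ Icc (τ w.length) T, |V w t| ≤ ε := by
  obtain ⟨s0, s1, s2⟩ := sg_bound hK hg hk
  have key : ∀ i : ℕ, ∃ m' : ℕ, ∀ w : Nd K, m' ≤ w.length → ∀ t ∈ Icc (τ w.length) T,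
      |V w t| ≤ (3 / 4) ^ i * (k / 2) := by
    intro i
    induction i with
    | zero =>
      refine ⟨m, fun w hw t ht => ?_⟩
      have ht' : t ∈ Icc 0 T := ⟨(hτ0 _).trans ht.1, ht.2⟩
      rw [pow_zero, one_mul, abs_le]
      exact ⟨by linarith [hR.lo w hw t ht'], hR.hi w hw t ht'⟩
    | succ i ih =>
      obtain ⟨m1, hm1⟩ := ih
      set s : ℝ := (3 / 4) ^ i * (k / 2) with hs
      have hs0 : 0 < s := by positivity
      have hs1 : s ≤ k / 2 := by
        have : (3 / 4 : ℝ) ^ i ≤ 1 := pow_le_one₀ (by norm_num) (by norm_num)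
        nlinarith
      obtain ⟨m2, hm2⟩ := hD (s / 16) (by positivity)
      obtain ⟨m3, hm3⟩ := (Metric.tendsto_atTop.1 hF.lim) (99 / 100 * k * (s / 16)) (by positivity)
      refine ⟨max (max m m1) (max m2 m3) + 1, fun w hw t ht => ?_⟩
      obtain ⟨n, hn⟩ : ∃ n, w.length = n + 1 := ⟨w.length - 1, by omega⟩
      rw [hn] at ht
      have h1 := step hK hL hg hk hF hV hR hτ0 hτm (n := n) (by omega) (A := s)
        (fun u hu x hx => hm1 u (by omega) x (by rw [hu]; exact hx))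
        (hm2 n (by omega)) w hn t ht
      refine h1.trans ?_
      have h2 : h (n + 1) ≤ 99 / 100 * k * (s / 16) := by
        have := hm3 (n + 1) (by omega)
        rw [Real.dist_eq, sub_zero, abs_of_nonneg (hF.nonneg _)] at this
        exact this.le
      have h3 : (s ^ 2 + h (n + 1)) / (99 / 100 * k) ≤ 50 / 99 * s + s / 16 := by
        rw [div_le_iff₀ (by positivity)]
        nlinarith
      have h5 : (3 / 4 : ℝ) ^ (i + 1) * (k / 2) = 3 / 4 * s := by rw [hs]; ring
      rw [h5]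
      linarith
  have hlim : Tendsto (fun i : ℕ => (3 / 4 : ℝ) ^ i * (k / 2)) atTop (𝓝 (0 * (k / 2))) :=
    (tendsto_pow_atTop_nhds_zero_of_lt_one (by norm_num) (by norm_num)).mul_const _
  rw [zero_mul] at hlim
  obtain ⟨i, hi⟩ := (hlim.eventually (gt_mem_nhds hε)).exists
  obtain ⟨m', hm'⟩ := key i
  exact ⟨m', fun w hw t ht => (hm' w hw t ht).trans hi.le⟩

/-- the rate -/
theorem G2 (hK : 1 ≤ K) (hL : 1 < L) (hg : 1 ≤ g) (hk : 0 < k) (hF : Frc L g T EF F h)
    (hV : Sol L g k T F V) (hR : RC g k T M m V) {τ : ℕ → ℝ} (hτ0 : ∀ n, 0 ≤ τ n)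
    (hτm : ∀ n, τ n ≤ τ (n + 1)) (hT : 0 ≤ T) {q C : ℝ} (hq : 0 < q) (hq1 : q < 1)
    (hh : ∀ n, h n ≤ C * q ^ n) (hD : ∀ n, HD L k T τ V n (C * q ^ (n + 1))) :
    ∃ C' : ℝ, ∀ w : Nd K, ∀ t ∈ Icc (τ w.length) T, |V w t| ≤ C' * q ^ w.length := by
  have hC : 0 ≤ C := by
    have := (hF.nonneg 0).trans (hh 0)
    simpa using this
  have hD' : ∀ ε : ℝ, 0 < ε → ∃ m' : ℕ, ∀ n, m' ≤ n → HD L k T τ V n ε := by
    intro ε hε
    have hlim : Tendsto (fun n : ℕ => C * q ^ (n + 1)) atTop (𝓝 (C * 0)) :=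
      ((tendsto_pow_atTop_nhds_zero_of_lt_one hq.le hq1).comp (tendsto_add_atTop_nat 1)).const_mul C
    rw [mul_zero] at hlim
    obtain ⟨m', hm'⟩ := eventually_atTop.1 (hlim.eventually (gt_mem_nhds hε))
    exact ⟨m', fun n hn w hw t ht => (hD n w hw t ht).trans (hm' n hn).le⟩
  set κ : ℝ := 99 / 100 * k with hκ
  have hκ0 : 0 < κ := by positivity
  obtain ⟨m1, hm1⟩ := G1 hK hL hg hk hF hV hR hτ0 hτm hD' (κ * q / 2) (by positivity)
  set m2 := max m m1 with hm2
  have h0T : (0 : ℝ) ∈ Icc 0 T := ⟨le_rfl, hT⟩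
  have hM : 0 ≤ M := (abs_nonneg _).trans (hR.bd [] 0 h0T)
  have hqm : 0 < q ^ m2 := by positivity
  set C' : ℝ := M / q ^ m2 + 2 * (C + C / κ) with hC'
  have hC'0 : 0 ≤ C' := by positivity
  refine ⟨C', ?_⟩
  have key : ∀ n : ℕ, ∀ w : Nd K, w.length = n → ∀ t ∈ Icc (τ n) T, |V w t| ≤ C' * q ^ n := by
    intro n
    induction n with
    | zero =>
      intro w hw t ht
      have ht' : t ∈ Icc 0 T := ⟨(hτ0 _).trans ht.1, ht.2⟩
      refine (hR.bd w t ht').trans ?_
      have h1 : M ≤ M / q ^ m2 := by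
        rw [le_div_iff₀ hqm]
        have : q ^ m2 ≤ 1 := pow_le_one₀ hq.le hq1.le
        nlinarith
      have h2 : 0 ≤ 2 * (C + C / κ) := by positivity
      rw [pow_zero, mul_one]
      linarith
    | succ n ih =>
      intro w hw t ht
      rcases lt_or_ge n m2 with hn | hn
      · have ht' : t ∈ Icc 0 T := ⟨(hτ0 _).trans ht.1, ht.2⟩
        refine (hR.bd w t ht').trans ?_
        have h1 : q ^ m2 ≤ q ^ (n + 1) := pow_le_pow_of_le_one hq.le hq1.le hn
        have h2 : M / q ^ m2 ≤ C' := by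
          have : 0 ≤ 2 * (C + C / κ) := by positivity
          rw [hC']; linarith
        calc M = M / q ^ m2 * q ^ m2 := by field_simp
          _ ≤ C' * q ^ (n + 1) := mul_le_mul h2 h1 hqm.le hC'0
      · set A : ℝ := min (κ * q / 2) (C' * q ^ n) with hA
        have hA0 : 0 ≤ A := le_min (by positivity) (by positivity)
        have h1 := step hK hL hg hk hF hV hR hτ0 hτm (n := n) (by omega) (A := A)
          (fun u hu x hx => le_min (hm1 u (by omega) x (by rw [hu]; exact hx)) (ih u hu x hx))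
          (hD n) w hw t ht
        refine h1.trans ?_
        have h2 : A ^ 2 ≤ (κ * q / 2) * (C' * q ^ n) := by
          rw [sq]
          exact mul_le_mul (min_le_left _ _) (min_le_right _ _) hA0 (by positivity)
        have h3 := hh (n + 1)
        have h4 : (A ^ 2 + h (n + 1)) / (99 / 100 * k) ≤ C' * q ^ (n + 1) / 2 +
            C / κ * q ^ (n + 1) := by
          rw [← hκ, div_le_iff₀ hκ0]
          have h5 : (C' * q ^ (n + 1) / 2 + C / κ * q ^ (n + 1)) * κ =
              (κ * q / 2) * (C' * q ^ n) + C * q ^ (n + 1) := by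
            field_simp
            ring
          rw [h5]
          linarith
        have h6 : (C + C / κ) * q ^ (n + 1) ≤ C' * q ^ (n + 1) / 2 := by
          have h7 : 0 ≤ M / q ^ m2 := by positivity
          have h8 : 2 * (C + C / κ) ≤ C' := by rw [hC']; linarith
          have h9 : 0 < q ^ (n + 1) := by positivity
          nlinarith [mul_le_mul_of_nonneg_right h8 h9.le]
        linarith
  exact fun w t ht => key w.length w rfl t ht

/-- a doubly exponentially small sequence -/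
theorem dbl {a c q : ℝ} (ha : 1 < a) (hc : 0 < c) (hq : 0 < q) (hq1 : q < 1) :
    ∃ C : ℝ, 0 ≤ C ∧ ∀ n : ℕ, Real.exp (-(c * a ^ n)) ≤ C * q ^ n := by
  have h1 := tendsto_pow_const_div_const_pow_of_one_lt 1 ha
  have hlq : 0 < -Real.log q := by
    have := Real.log_neg hq hq1
    linarith
  obtain ⟨n0, hn0⟩ := eventually_atTop.1 (h1.eventually (gt_mem_nhds
    (show (0 : ℝ) < c / (-Real.log q) by positivity)))
  have hqn : 0 < q ^ n0 := by positivity
  refine ⟨1 / q ^ n0, by positivity, fun n => ?_⟩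
  have han : 0 < a ^ n := by positivity
  rcases lt_or_ge n n0 with hn | hn
  · have h2 : Real.exp (-(c * a ^ n)) ≤ 1 := Real.exp_le_one_iff.2 (by nlinarith [mul_pos hc han])
    refine h2.trans ?_
    rw [one_div, ← div_eq_inv_mul, one_le_div hqn]
    exact pow_le_pow_of_le_one hq.le hq1.le hn.le
  · have h2 := hn0 n hn
    rw [pow_one, div_lt_div_iff₀ han hlq] at h2
    have h3 : Real.exp (-(c * a ^ n)) ≤ q ^ n := by
      rw [← Real.exp_log (show 0 < q ^ n by positivity), Real.log_pow]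
      apply Real.exp_le_exp.2
      linarith
    refine h3.trans ?_
    have : 1 ≤ 1 / q ^ n0 := by
      rw [one_le_div hqn]; exact pow_le_one₀ hq.le hq1.le
    have h4 : 0 < q ^ n := by positivity
    nlinarith

theorem t_TSM : P_TSM := by
  intro K L g k T EF M m F V h hK hL hg hk hT hF hV hR
  have h0T : (0 : ℝ) ∈ Icc 0 T := ⟨le_rfl, hT.le⟩
  have hM : 0 ≤ M := (abs_nonneg _).trans (hR.bd [] 0 h0T)
  have hexp : ∀ (n : ℕ) (t : ℝ), 0 ≤ t → Real.exp (-(99 / 100 * k * L ^ (n + 1) * (t - 0))) ≤ 1 := by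
    intro n t ht
    apply Real.exp_le_one_iff.2
    have : 0 ≤ 99 / 100 * k * L ^ (n + 1) * (t - 0) := by
      rw [sub_zero]; positivity
    linarith
  refine ⟨fun hDt ε hε => ?_, fun hh => ⟨fun q t0 hq hq1 ht0 ht0T => ?_, fun hd q hq hq1 => ?_⟩⟩
  · obtain ⟨m', hm'⟩ := G1 hK hL hg hk hF hV hR (τ := fun _ => 0) (fun _ => le_rfl)
      (fun _ => le_rfl) (fun ε hε => by
        obtain ⟨m1, hm1⟩ := hDt ε hε
        refine ⟨m1, fun n hn w hw t ht => ?_⟩
        have h1 := hm1 w (by omega)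
        have h2 := hexp n t ht.1
        have h3 : 0 ≤ |V w 0| := abs_nonneg _
        calc Real.exp (-(99 / 100 * k * L ^ (n + 1) * (t - 0))) * |V w 0| ≤ 1 * |V w 0| :=
              mul_le_mul_of_nonneg_right h2 h3
          _ ≤ ε := by rw [one_mul]; exact h1) ε hε
    exact ⟨m', fun w hw t ht => hm' w hw t ht⟩
  · -- smoothing
    have hL0 : 0 < L := by linarith
    set a : ℝ := Real.sqrt L with ha
    have ha1 : 1 < a := by rw [ha]; exact Real.lt_sqrt_of_sq_lt (by simpa using hL)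
    have ha0 : 0 < a := by linarith
    have haa : a * a = L := Real.mul_self_sqrt hL0.le
    set ρ : ℝ := a⁻¹ with hρ
    have hρ0 : 0 < ρ := by positivity
    have hρ1 : ρ < 1 := inv_lt_one_of_one_lt₀ ha1
    set τ : ℕ → ℝ := fun n => t0 * (1 - ρ ^ n) with hτ
    have hρn : ∀ n : ℕ, ρ ^ n ≤ 1 := fun n => pow_le_one₀ hρ0.le hρ1.le
    have hτ0 : ∀ n, 0 ≤ τ n := fun n => mul_nonneg ht0.le (by linarith [hρn n])
    have hτt : ∀ n, τ n ≤ t0 := by
      intro n
      have : 0 < ρ ^ n := by positivity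
      simp only [hτ]
      nlinarith
    have hτd : ∀ n, τ (n + 1) - τ n = t0 * (1 - ρ) * ρ ^ n := by
      intro n; simp only [hτ]; ring
    have hτm : ∀ n, τ n ≤ τ (n + 1) := by
      intro n
      have := hτd n
      have h2 : 0 ≤ t0 * (1 - ρ) * ρ ^ n :=
        mul_nonneg (mul_nonneg ht0.le (by linarith)) (by positivity)
      linarith
    have hc : 0 < 99 / 100 * k * t0 * (1 - ρ) * L :=
      mul_pos (mul_pos (by positivity) (by linarith)) hL0
    obtain ⟨C1, hC1, hC1'⟩ := dbl ha1 hc hq hq1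
    obtain ⟨C2, hC2⟩ := hh q hq hq1
    have hLρ : ∀ n : ℕ, L ^ (n + 1) * ρ ^ n = L * a ^ n := by
      intro n
      rw [pow_succ, ← haa, mul_pow, hρ, inv_pow]
      field_simp
    have hC2' : 0 ≤ C2 := by
      have := (hF.nonneg 0).trans (hC2 0)
      simpa using this
    obtain ⟨C', hC'⟩ := G2 hK hL hg hk hF hV hR hτ0 hτm hT.le hq hq1
      (C := M * C1 / q + C2) (fun n => by
        refine (hC2 n).trans ?_
        have h1 : 0 ≤ M * C1 / q := by positivity
        have h2 : 0 < q ^ n := by positivity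
        nlinarith) (fun n w hw t ht => by
        have h1 : Real.exp (-(99 / 100 * k * L ^ (n + 1) * (t - τ n))) ≤ C1 * q ^ n := by
          refine le_trans (Real.exp_le_exp.2 ?_) (hC1' n)
          have h2 : t0 * (1 - ρ) * ρ ^ n ≤ t - τ n := by
            rw [← hτd]; linarith [ht.1]
          have h3 : 0 < 99 / 100 * k * L ^ (n + 1) := by positivity
          have h4 := mul_le_mul_of_nonneg_left h2 h3.le
          have h5 : 99 / 100 * k * L ^ (n + 1) * (t0 * (1 - ρ) * ρ ^ n) =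
              99 / 100 * k * t0 * (1 - ρ) * L * a ^ n := by
            calc 99 / 100 * k * L ^ (n + 1) * (t0 * (1 - ρ) * ρ ^ n)
                = 99 / 100 * k * t0 * (1 - ρ) * (L ^ (n + 1) * ρ ^ n) := by ring
              _ = _ := by rw [hLρ]; ring
          linarith
        have h6 : |V w (τ n)| ≤ M := hR.bd w _ ⟨hτ0 n, (hτt n).trans ht0T⟩
        calc Real.exp (-(99 / 100 * k * L ^ (n + 1) * (t - τ n))) * |V w (τ n)|
            ≤ (C1 * q ^ n) * M := mul_le_mul h1 h6 (abs_nonneg _) (by positivity)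
          _ = M * C1 / q * q ^ (n + 1) := by rw [pow_succ]; field_simp
          _ ≤ (M * C1 / q + C2) * q ^ (n + 1) := by
              have h2 : 0 < q ^ (n + 1) := by positivity
              nlinarith [mul_nonneg hC2' h2.le])
    exact ⟨C', fun w t ht => hC' w t ⟨(hτt _).trans ht.1, ht.2⟩⟩
  · obtain ⟨C1, hC1⟩ := hd q hq hq1
    obtain ⟨C2, hC2⟩ := hh q hq hq1
    have hC1' : 0 ≤ C1 := by
      have := (abs_nonneg _).trans (hC1 [])
      simpa using this
    have hC2' : 0 ≤ C2 := by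
      have := (hF.nonneg 0).trans (hC2 0)
      simpa using this
    obtain ⟨C', hC'⟩ := G2 hK hL hg hk hF hV hR (τ := fun _ => 0) (fun _ => le_rfl)
      (fun _ => le_rfl) hT.le hq hq1 (C := C1 + C2) (fun n => by
        refine (hC2 n).trans ?_
        have h2 : 0 < q ^ n := by positivity
        nlinarith [mul_nonneg hC1' h2.le]) (fun n w hw t ht => by
        have h1 := hC1 w
        rw [hw] at h1
        have h2 := hexp n t ht.1
        calc Real.exp (-(99 / 100 * k * L ^ (n + 1) * (t - 0))) * |V w 0| ≤ 1 * |V w 0| :=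
              mul_le_mul_of_nonneg_right h2 (abs_nonneg _)
          _ ≤ (C1 + C2) * q ^ (n + 1) := by
              have h3 : 0 < q ^ (n + 1) := by positivity
              nlinarith [mul_nonneg hC2' h3.le])
    exact ⟨C', fun w t ht => hC' w t ht⟩

end Pool.Agent.Q257.DT
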