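import Pool.Agent.Q257.DT.Ct

/-!
# Project DT, job TWS: weak-strong uniqueness
-/

set_option autoImplicit false

namespace Pool.Agent.Q257.DT

open Set Filter Topology MeasureTheory Pool.Agent.Q186.DT

theorem PE_mono {K : ℕ} {L g : ℝ} (hL : 0 < L) (hg : 0 ≤ g) (V : Nd K → ℝ → ℝ) (t : ℝ) :
    Monotone fun N => PE L g V N t := by
  refine monotone_nat_of_le_succ fun N => ?_
  rw [PE_eq, PE_eq, Finset.sum_range_succ _ (N + 1)]
  have := lv_nonneg hg V (N + 1) t
  have h2 : 0 < L ^ (N + 1) := by positivity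
  have : 0 ≤ (L ^ (N + 1))⁻¹ * lv g V (N + 1) t := by positivity
  linarith

theorem PE_df_le {K : ℕ} {L g : ℝ} (hL : 0 < L) (hg : 0 ≤ g) (V W : Nd K → ℝ → ℝ) (N : ℕ) (t : ℝ) :
    PE L g (df V W) N t ≤ 2 * PE L g V N t + 2 * PE L g W N t := by
  simp only [PE, sm, df, Finset.mul_sum, ← Finset.sum_add_distrib]
  refine Finset.sum_le_sum fun n _ => Finset.sum_le_sum fun w _ => ?_
  have h1 : 0 ≤ (g / L) ^ w.length := by positivity
  have h2 : (V w t - W w t) ^ 2 ≤ 2 * V w t ^ 2 + 2 * W w t ^ 2 := by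
    nlinarith [sq_nonneg (V w t + W w t)]
  nlinarith [mul_le_mul_of_nonneg_left h2 h1]

theorem term_le_PE {K : ℕ} {L g : ℝ} (hL : 0 < L) (hg : 0 ≤ g) (V : Nd K → ℝ → ℝ) (w : Nd K)
    (t : ℝ) : (g / L) ^ w.length * V w t ^ 2 ≤ PE L g V w.length t := by
  have h1 : (g / L) ^ w.length * V w t ^ 2 ≤
      ∑ u ∈ lev K w.length, (g / L) ^ u.length * V u t ^ 2 :=
    Finset.single_le_sum (f := fun u => (g / L) ^ u.length * V u t ^ 2)
      (fun u _ => by positivity) ((mem_lev _ w).2 rfl)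
  refine h1.trans ?_
  exact Finset.single_le_sum
    (f := fun n => ∑ u ∈ lev K n, (g / L) ^ u.length * V u t ^ 2)
    (fun n _ => Finset.sum_nonneg fun u _ => by positivity)
    (Finset.self_mem_range_succ w.length)

/-- the energy inequality of the difference -/
theorem energy {K : ℕ} {L g k T EF M ε : ℝ} {F V W : Nd K → ℝ → ℝ} {h : ℕ → ℝ} {m : ℕ}
    (hL : 1 < L) (hg : 1 ≤ g) (hT : 0 < T) (hF : Frc L g T EF F h)
    (hV : Sol L g k T F V) (hW : Sol L g k T F W) (h0 : ∀ w, V w 0 = W w 0) (hε : 0 ≤ ε)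
    (hε' : (3 * K * g + 1) * ε ≤ 2 * k)
    (hM : ∀ w, ∀ t ∈ Icc 0 T, |V w t| ≤ M)
    (hm : ∀ w, m ≤ w.length → ∀ t ∈ Icc 0 T, |V w t| ≤ ε) (N : ℕ) (t : ℝ) (ht : t ∈ Icc 0 T) :
    PE L g (df V W) N t ≤ (3 * K * g + 1) * (M * L ^ m) * (∫ s in (0:ℝ)..t, PE L g (df V W) N s) +
      (-2 * (∫ s in (0:ℝ)..t, fl g W N s) + 2 * M * (K * g * ((∫ s in (0:ℝ)..T, lv g V N s) +
        (∫ s in (0:ℝ)..T, lv g W N s)) + ((∫ s in (0:ℝ)..T, lv g V (N + 1) s) +
        (∫ s in (0:ℝ)..T, lv g W (N + 1) s)))) := by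
  have cV := Sol.cont hV
  have cW := Sol.cont hW
  have cF := hF.cont
  have hg0 : 0 ≤ g := by linarith
  have h0T : (0 : ℝ) ∈ Icc 0 T := ⟨le_rfl, hT.le⟩
  have hM0 : 0 ≤ M := (abs_nonneg _).trans (hM [] 0 h0T)
  set y' : ℝ → ℝ := fun s => sm N (fun w => (g / L) ^ w.length *
      (2 * (V w s - W w s) * (vf L g k F V w s - vf L g k F W w s))) with hy'
  have hd : ∀ s ∈ Icc 0 T, HasDerivWithinAt (fun s => PE L g (df V W) N s) (y' s) (Icc 0 T) s := by
    intro s hs
    simp only [PE, sm, hy']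
    refine HasDerivWithinAt.fun_sum fun n _ => HasDerivWithinAt.fun_sum fun w _ => ?_
    have h1 := (((hV w s hs).sub (hW w s hs)).pow 2).const_mul ((g / L) ^ w.length)
    refine h1.congr_deriv ?_
    simp only [Pi.sub_apply]
    push_cast
    ring
  have cy' : ContinuousOn y' (Icc 0 T) := by
    refine cont_sm (fun w s => (g / L) ^ w.length *
      (2 * (V w s - W w s) * (vf L g k F V w s - vf L g k F W w s))) (fun w => ?_) N
    have h1 := cV w
    have h2 := cW w
    have h3 := cont_vf (L := L) (g := g) (k := k) cF cV w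
    have h4 := cont_vf (L := L) (g := g) (k := k) cF cW w
    fun_prop
  have cD := cont_df cV cW
  have e1 : ∫ s in (0:ℝ)..t, y' s = PE L g (df V W) N t - PE L g (df V W) N 0 := by
    refine intervalIntegral.integral_eq_sub_of_hasDerivAt_of_le ht.1
      ((cont_PE cD N).mono (Icc_subset_Icc le_rfl ht.2)) ?_ (ii cy' le_rfl ht.1 ht.2)
    intro s hs
    exact (hd s ⟨hs.1.le, hs.2.le.trans ht.2⟩).hasDerivAt
      (Icc_mem_nhds hs.1 (hs.2.trans_le ht.2))
  have e2 : PE L g (df V W) N 0 = 0 := by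
    simp only [PE, sm, df, h0, sub_self]
    simp
  have e3 : PE L g (df V W) N t = ∫ s in (0:ℝ)..t, y' s := by rw [e1, e2, sub_zero]
  set Z : ℝ → ℝ := fun s => 2 * M * (K * g * (lv g V N s + lv g W N s) +
    (lv g V (N + 1) s + lv g W (N + 1) s)) with hZ
  have cZ : ContinuousOn Z (Icc 0 T) := by
    have h1 := cont_lv (g := g) cV N
    have h2 := cont_lv (g := g) cW N
    have h3 := cont_lv (g := g) cV (N + 1)
    have h4 := cont_lv (g := g) cW (N + 1)
    fun_prop
  have cfl := cont_fl (g := g) cW N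
  have cPE := cont_PE (L := L) (g := g) cD N
  set C := (3 * K * g + 1) * (M * L ^ m) with hC
  have e4 : ∫ s in (0:ℝ)..t, y' s ≤ ∫ s in (0:ℝ)..t, (C * PE L g (df V W) N s +
      (-2 * fl g W N s + Z s)) := by
    refine intervalIntegral.integral_mono_on ht.1 (ii cy' le_rfl ht.1 ht.2)
      (ii (by fun_prop) le_rfl ht.1 ht.2) ?_
    intro s hs
    have hs' : s ∈ Icc 0 T := ⟨hs.1, hs.2.trans ht.2⟩
    exact pointwise hL.le hg hε hε' F V W s m N (fun w => hM w s hs')
      (fun w hw => hm w hw s hs')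
  have i1 : IntervalIntegrable (fun s => C * PE L g (df V W) N s) volume 0 t :=
    ii (by fun_prop) le_rfl ht.1 ht.2
  have i2 : IntervalIntegrable (fun s => -2 * fl g W N s) volume 0 t :=
    ii (by fun_prop) le_rfl ht.1 ht.2
  have i3 : IntervalIntegrable Z volume 0 t := ii cZ le_rfl ht.1 ht.2
  have i4 : IntervalIntegrable (fun s => -2 * fl g W N s + Z s) volume 0 t := i2.add i3
  rw [intervalIntegral.integral_add i1 i4, intervalIntegral.integral_add i2 i3,
    intervalIntegral.integral_const_mul, intervalIntegral.integral_const_mul] at e4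
  have e5 : ∫ s in (0:ℝ)..t, Z s ≤ ∫ s in (0:ℝ)..T, Z s := by
    rw [← intervalIntegral.integral_add_adjacent_intervals i3 (ii cZ ht.1 ht.2 le_rfl)]
    have : 0 ≤ ∫ s in t..T, Z s := by
      refine intervalIntegral.integral_nonneg ht.2 fun s _ => ?_
      have h1 := lv_nonneg hg0 V N s
      have h2 := lv_nonneg hg0 W N s
      have h3 := lv_nonneg hg0 V (N + 1) s
      have h4 := lv_nonneg hg0 W (N + 1) s
      simp only [hZ]
      positivity
    linarith
  have e6 : ∫ s in (0:ℝ)..T, Z s = 2 * M * (K * g * ((∫ s in (0:ℝ)..T, lv g V N s) +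
        (∫ s in (0:ℝ)..T, lv g W N s)) + ((∫ s in (0:ℝ)..T, lv g V (N + 1) s) +
        (∫ s in (0:ℝ)..T, lv g W (N + 1) s))) := by
    have j1 := ii (cont_lv (g := g) cV N) le_rfl hT.le le_rfl
    have j2 := ii (cont_lv (g := g) cW N) le_rfl hT.le le_rfl
    have j3 := ii (cont_lv (g := g) cV (N + 1)) le_rfl hT.le le_rfl
    have j4 := ii (cont_lv (g := g) cW (N + 1)) le_rfl hT.le le_rfl
    simp only [hZ]
    rw [intervalIntegral.integral_const_mul, intervalIntegral.integral_add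
      ((j1.add j2).const_mul _) (j3.add j4), intervalIntegral.integral_const_mul,
      intervalIntegral.integral_add j1 j2, intervalIntegral.integral_add j3 j4]
  rw [e3]
  rw [e6] at e5
  linarith

theorem t_TWS : P_TWS := by
  intro K L g k T EF M E F V W h hK hL hg hk hT hF hV hW h0 hM hTl hEV hDV hEW hDW hEI
  have cV := Sol.cont hV
  have cW := Sol.cont hW
  have hg0 : 0 ≤ g := by linarith
  have hL0 : 0 < L := by linarith
  have h0T : (0 : ℝ) ∈ Icc 0 T := ⟨le_rfl, hT.le⟩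
  have hM0 : 0 ≤ M := (abs_nonneg _).trans (hM [] 0 h0T)
  have hpos : 0 < 3 * (K : ℝ) * g + 1 := by positivity
  obtain ⟨m, hm⟩ := hTl (2 * k / (3 * K * g + 1)) (by positivity)
  set C := (3 * K * g + 1) * (M * L ^ m) with hC
  have hC0 : 0 ≤ C := by positivity
  have cD := cont_df cV cW
  have hen := energy hL hg hT hF hV hW h0 (by positivity)
    (show (3 * (K : ℝ) * g + 1) * (2 * k / (3 * K * g + 1)) ≤ 2 * k by
      rw [mul_div_cancel₀ _ hpos.ne']) hM hm
  set p : ℕ → ℝ → ℝ := fun N t => PE L g (df V W) N t with hp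
  have hpm : ∀ t, Monotone fun N => p N t := fun t => PE_mono hL0 hg0 _ t
  have hpb : ∀ N, ∀ t ∈ Icc 0 T, p N t ≤ 4 * E := by
    intro N t ht
    have := PE_df_le hL0 hg0 V W N t
    have h1 := hEV N t ht
    have h2 := hEW N t ht
    simp only [hp]
    linarith
  have hp0 : ∀ N t, 0 ≤ p N t := by
    intro N t
    simp only [hp]
    rw [PE_eq]
    refine Finset.sum_nonneg fun n _ => ?_
    have := lv_nonneg hg0 (df V W) n t
    positivity
  set ψ : ℝ → ℝ := fun t => ⨆ N, p N t with hψ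
  have hbdd : ∀ t ∈ Icc 0 T, BddAbove (range fun N => p N t) := by
    rintro t ht
    exact ⟨4 * E, by rintro _ ⟨N, rfl⟩; exact hpb N t ht⟩
  have hlim : ∀ t ∈ Icc 0 T, Tendsto (fun N => p N t) atTop (𝓝 (ψ t)) := fun t ht =>
    tendsto_atTop_ciSup (hpm t) (hbdd t ht)
  have hψb : ∀ t ∈ Icc 0 T, ψ t ≤ 4 * E := fun t ht => ciSup_le fun N => hpb N t ht
  have hψ0 : ∀ t ∈ Icc 0 T, 0 ≤ ψ t := fun t ht => (hp0 0 t).trans (le_ciSup (hbdd t ht) 0)
  have hmeas : ∀ t ∈ Icc 0 T, ∀ N, AEStronglyMeasurable (p N) (volume.restrict (uIoc 0 t)) := by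
    intro t ht N
    have h1 := ii (cont_PE (L := L) (g := g) cD N) le_rfl ht.1 ht.2
    exact (intervalIntegrable_iff.1 h1).aestronglyMeasurable
  have hsub : ∀ t ∈ Icc 0 T, uIoc 0 t ⊆ Icc 0 T := by
    intro t ht s hs
    rw [uIoc_of_le ht.1] at hs
    exact ⟨hs.1.le, hs.2.trans ht.2⟩
  have hint : ∀ t ∈ Icc 0 T, IntervalIntegrable ψ volume 0 t := by
    intro t ht
    rw [intervalIntegrable_iff]
    have h1 : AEStronglyMeasurable ψ (volume.restrict (uIoc 0 t)) := by
      refine aestronglyMeasurable_of_tendsto_ae atTop (hmeas t ht) ?_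
      rw [ae_restrict_iff' measurableSet_uIoc]
      exact Filter.Eventually.of_forall fun s hs => hlim s (hsub t ht hs)
    refine Integrable.mono' (g := fun _ => 4 * E) ?_ h1 ?_
    · have : IntegrableOn (fun _ : ℝ => 4 * E) (uIoc 0 t) := by
        rw [← intervalIntegrable_iff]; exact intervalIntegrable_const
      exact this
    · rw [ae_restrict_iff' measurableSet_uIoc]
      refine Filter.Eventually.of_forall fun s hs => ?_
      rw [Real.norm_of_nonneg (hψ0 s (hsub t ht hs))]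
      exact hψb s (hsub t ht hs)
  have hconv : ∀ t ∈ Icc 0 T, Tendsto (fun N => ∫ s in (0:ℝ)..t, p N s) atTop
      (𝓝 (∫ s in (0:ℝ)..t, ψ s)) := by
    intro t ht
    refine intervalIntegral.tendsto_integral_filter_of_dominated_convergence (fun _ => 4 * E)
      (Filter.Eventually.of_forall (hmeas t ht)) ?_ intervalIntegrable_const ?_
    · refine Filter.Eventually.of_forall fun N => Filter.Eventually.of_forall fun s hs => ?_
      rw [Real.norm_of_nonneg (hp0 N s)]
      exact hpb N s (hsub t ht hs)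
    · exact Filter.Eventually.of_forall fun s hs => hlim s (hsub t ht hs)
  -- the error terms
  have z1 := lv_lim hg0 hT.le cV hDV
  have z2 := lv_lim hg0 hT.le cW hDW
  have z3 := z1.comp (tendsto_add_atTop_nat 1)
  have z4 := z2.comp (tendsto_add_atTop_nat 1)
  have hz : Tendsto (fun N => 2 * M * (K * g * ((∫ s in (0:ℝ)..T, lv g V N s) +
        (∫ s in (0:ℝ)..T, lv g W N s)) + ((∫ s in (0:ℝ)..T, lv g V (N + 1) s) +
        (∫ s in (0:ℝ)..T, lv g W (N + 1) s)))) atTop (𝓝 0) := by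
    have := (((z1.add z2).const_mul ((K : ℝ) * g)).add (z3.add z4)).const_mul (2 * M)
    simpa using this
  have hfin : ∀ t ∈ Icc 0 T, ψ t ≤ C * ∫ s in (0:ℝ)..t, ψ s := by
    intro t ht
    refine le_of_forall_pos_le_add fun η hη => ?_
    have l1 : Tendsto (fun N => C * (∫ s in (0:ℝ)..t, p N s) + (η + 2 * M * (K * g *
        ((∫ s in (0:ℝ)..T, lv g V N s) + (∫ s in (0:ℝ)..T, lv g W N s)) +
        ((∫ s in (0:ℝ)..T, lv g V (N + 1) s) + (∫ s in (0:ℝ)..T, lv g W (N + 1) s))))) atTop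
        (𝓝 (C * (∫ s in (0:ℝ)..t, ψ s) + (η + 0))) :=
      ((hconv t ht).const_mul C).add (tendsto_const_nhds.add hz)
    rw [add_zero] at l1
    refine le_of_tendsto_of_tendsto (hlim t ht) l1 ?_
    filter_upwards [hEI t ht (η / 2) (by positivity)] with N hN
    have h3 := hen N t ht
    simp only [hp]
    linarith
  have hz0 := iter hC0 hψb hint hfin
  intro w t ht
  have h1 := term_le_PE hL0 hg0 (df V W) w t
  have h2 : PE L g (df V W) w.length t ≤ 0 := (le_ciSup (hbdd t ht) w.length).trans (hz0 t ht)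
  have h3 : 0 < (g / L) ^ w.length := by positivity
  have h4 : df V W w t ^ 2 ≤ 0 := by
    by_contra hc
    push Not at hc
    have := mul_pos h3 hc
    linarith
  have h5 : df V W w t = 0 := by
    have := le_antisymm h4 (sq_nonneg _)
    exact pow_eq_zero_iff (two_ne_zero) |>.1 this
  exact sub_eq_zero.1 h5

end Pool.Agent.Q257.DT
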