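import Pool.Agent.Q257.DT.TWS1

/-!
# Project DT: continuity lemmas and the vanishing of the dissipation at infinity
-/

set_option autoImplicit false

namespace Pool.Agent.Q257.DT

open Set Filter Topology MeasureTheory Pool.Agent.Q186.DT

variable {K : ℕ} {L g k T : ℝ} {F V W : Nd K → ℝ → ℝ}

theorem Sol.cont (h : Sol L g k T F V) (w : Nd K) : ContinuousOn (V w) (Icc 0 T) :=
  fun t ht => (h w t ht).continuousWithinAt

theorem cont_pr (hV : ∀ w, ContinuousOn (V w) (Icc 0 T)) (w : Nd K) :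
    ContinuousOn (fun t => pr V w t) (Icc 0 T) := by
  cases w with
  | nil => simp only [pr_nil]; exact continuousOn_const
  | cons i u => simp only [pr_cons]; exact hV u

theorem cont_ch (hV : ∀ w, ContinuousOn (V w) (Icc 0 T)) (w : Nd K) :
    ContinuousOn (fun t => ch V w t) (Icc 0 T) :=
  continuousOn_finsetSum _ fun i _ => hV (i :: w)

theorem cont_vf (hF : ∀ w, ContinuousOn (F w) (Icc 0 T))
    (hV : ∀ w, ContinuousOn (V w) (Icc 0 T)) (w : Nd K) :
    ContinuousOn (fun t => vf L g k F V w t) (Icc 0 T) := by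
  have h1 := cont_pr hV w
  have h2 := cont_ch hV w
  have h3 := hV w
  have h4 := hF w
  unfold vf
  fun_prop

theorem cont_sm (f : Nd K → ℝ → ℝ) (hf : ∀ w, ContinuousOn (f w) (Icc 0 T)) (N : ℕ) :
    ContinuousOn (fun t => sm N fun w => f w t) (Icc 0 T) :=
  continuousOn_finsetSum _ fun _ _ => continuousOn_finsetSum _ fun w _ => hf w

theorem cont_PE (hV : ∀ w, ContinuousOn (V w) (Icc 0 T)) (N : ℕ) :
    ContinuousOn (fun t => PE L g V N t) (Icc 0 T) := by
  refine cont_sm (fun w t => (g / L) ^ w.length * V w t ^ 2) (fun w => ?_) N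
  have := hV w
  fun_prop

theorem cont_PD (hV : ∀ w, ContinuousOn (V w) (Icc 0 T)) (N : ℕ) :
    ContinuousOn (fun t => PD g V N t) (Icc 0 T) := by
  refine cont_sm (fun w t => g ^ w.length * V w t ^ 2) (fun w => ?_) N
  have := hV w
  fun_prop

theorem cont_lv (hV : ∀ w, ContinuousOn (V w) (Icc 0 T)) (N : ℕ) :
    ContinuousOn (fun t => lv g V N t) (Icc 0 T) := by
  refine continuousOn_finsetSum _ fun w _ => ?_
  have := hV w
  fun_prop

theorem cont_fl (hV : ∀ w, ContinuousOn (V w) (Icc 0 T)) (N : ℕ) :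
    ContinuousOn (fun t => fl g V N t) (Icc 0 T) := by
  have : ContinuousOn (fun t => ∑ w ∈ lev K N, V w t ^ 2 * ch V w t) (Icc 0 T) := by
    refine continuousOn_finsetSum _ fun w _ => ?_
    have h1 := hV w
    have h2 := cont_ch hV w
    fun_prop
  unfold fl
  fun_prop

theorem ii {f : ℝ → ℝ} (hf : ContinuousOn f (Icc 0 T)) {s t : ℝ} (h0 : 0 ≤ s) (h1 : s ≤ t)
    (h2 : t ≤ T) : IntervalIntegrable f volume s t :=
  (hf.mono (Icc_subset_Icc h0 h2)).intervalIntegrable_of_Icc h1

theorem cont_df (hV : ∀ w, ContinuousOn (V w) (Icc 0 T)) (hW : ∀ w, ContinuousOn (W w) (Icc 0 T))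
    (w : Nd K) : ContinuousOn (df V W w) (Icc 0 T) := (hV w).sub (hW w)

/-- the dissipation of one generation tends to zero -/
theorem lv_lim (hg : 0 ≤ g) (hT : 0 ≤ T) (hV : ∀ w, ContinuousOn (V w) (Icc 0 T)) {E : ℝ}
    (hE : ∀ N, (∫ t in (0:ℝ)..T, PD g V N t) ≤ E) :
    Tendsto (fun N => ∫ t in (0:ℝ)..T, lv g V N t) atTop (𝓝 0) := by
  have h1 : ∀ N, (∫ t in (0:ℝ)..T, PD g V N t) =
      ∑ n ∈ Finset.range (N + 1), ∫ t in (0:ℝ)..T, lv g V n t := by
    intro N
    rw [← intervalIntegral.integral_finsetSum]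
    · refine intervalIntegral.integral_congr fun t _ => ?_
      exact PD_eq g V N t
    · exact fun n _ => ii (cont_lv hV n) le_rfl hT le_rfl
  have h2 : ∀ n, 0 ≤ ∫ t in (0:ℝ)..T, lv g V n t := fun n =>
    intervalIntegral.integral_nonneg hT fun t _ => lv_nonneg hg V n t
  have h3 : ∀ n, ∑ i ∈ Finset.range n, ∫ t in (0:ℝ)..T, lv g V i t ≤ E := by
    intro n
    have := hE n
    rw [h1, Finset.sum_range_succ] at this
    linarith [h2 n]
  exact (summable_of_sum_range_le h2 h3).tendsto_atTop_zero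

/-- an integral inequality which forces a bounded function to vanish -/
theorem iter {ψ : ℝ → ℝ} {C B T : ℝ} (hC : 0 ≤ C) (hB : ∀ t ∈ Icc 0 T, ψ t ≤ B)
    (hi : ∀ t ∈ Icc 0 T, IntervalIntegrable ψ volume 0 t)
    (h : ∀ t ∈ Icc 0 T, ψ t ≤ C * ∫ s in (0:ℝ)..t, ψ s) : ∀ t ∈ Icc 0 T, ψ t ≤ 0 := by
  have key : ∀ j : ℕ, ∀ t ∈ Icc 0 T, ψ t ≤ B * ((C * t) ^ j / (j.factorial : ℝ)) := by
    intro j
    induction j with
    | zero => intro t ht; simpa using hB t ht
    | succ j ih =>
      intro t ht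
      refine (h t ht).trans ?_
      have h1 : ∫ s in (0:ℝ)..t, ψ s ≤ ∫ s in (0:ℝ)..t, B * ((C * s) ^ j / (j.factorial : ℝ)) := by
        refine intervalIntegral.integral_mono_on ht.1 (hi t ht) ?_ ?_
        · exact (Continuous.intervalIntegrable (by fun_prop) _ _)
        · intro s hs
          exact ih s ⟨hs.1, hs.2.trans ht.2⟩
      refine (mul_le_mul_of_nonneg_left h1 hC).trans (le_of_eq ?_)
      have h2 : (fun s : ℝ => B * ((C * s) ^ j / (j.factorial : ℝ))) =
          fun s : ℝ => (B * C ^ j / (j.factorial : ℝ)) * s ^ j := by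
        funext s
        rw [mul_pow]; ring
      rw [h2, intervalIntegral.integral_const_mul, integral_pow, Nat.factorial_succ]
      push_cast
      have h3 : ((j : ℝ) + 1) ≠ 0 := by positivity
      have h4 : (j.factorial : ℝ) ≠ 0 := by positivity
      rw [zero_pow (Nat.succ_ne_zero j), mul_pow]
      field_simp
      ring
  intro t ht
  have h1 : Tendsto (fun j : ℕ => B * ((C * t) ^ j / (j.factorial : ℝ))) atTop (𝓝 (B * 0)) :=
    (FloorSemiring.tendsto_pow_div_factorial_atTop (C * t)).const_mul B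
  rw [mul_zero] at h1
  exact ge_of_tendsto' h1 fun j => key j t ht

end Pool.Agent.Q257.DT
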