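import Pool.Agent.Q186.DT.Stm

/-!
# Project DT, job TWS: weak-strong uniqueness, the algebra
-/

set_option autoImplicit false

namespace Pool.Agent.Q257.DT

open Set Filter Topology MeasureTheory Pool.Agent.Q186.DT

/-- one generation of the dissipation -/
noncomputable def lv {K : ℕ} (g : ℝ) (V : Nd K → ℝ → ℝ) (n : ℕ) (t : ℝ) : ℝ :=
  ∑ w ∈ lev K n, g ^ n * V w t ^ 2

/-- the difference -/
def df {K : ℕ} (V W : Nd K → ℝ → ℝ) : Nd K → ℝ → ℝ := fun w t => V w t - W w t

theorem lv_nonneg {K : ℕ} {g : ℝ} (hg : 0 ≤ g) (V : Nd K → ℝ → ℝ) (n : ℕ) (t : ℝ) :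
    0 ≤ lv g V n t := Finset.sum_nonneg fun _ _ => by positivity

theorem PD_eq {K : ℕ} (g : ℝ) (V : Nd K → ℝ → ℝ) (N : ℕ) (t : ℝ) :
    PD g V N t = ∑ n ∈ Finset.range (N + 1), lv g V n t := by
  simp only [PD, sm, lv]
  refine Finset.sum_congr rfl fun n _ => Finset.sum_congr rfl fun w hw => ?_
  rw [(mem_lev n w).1 hw]

theorem PE_eq {K : ℕ} (L g : ℝ) (V : Nd K → ℝ → ℝ) (N : ℕ) (t : ℝ) :
    PE L g V N t = ∑ n ∈ Finset.range (N + 1), (L ^ n)⁻¹ * lv g V n t := by
  simp only [PE, sm, lv]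
  refine Finset.sum_congr rfl fun n _ => ?_
  rw [Finset.mul_sum]
  refine Finset.sum_congr rfl fun w hw => ?_
  rw [(mem_lev n w).1 hw, div_pow]
  ring

/-- the interior terms of generation `j` -/
noncomputable def rr {K : ℕ} (g : ℝ) (V W : Nd K → ℝ → ℝ) (j : ℕ) (t : ℝ) : ℝ :=
  ∑ u ∈ lev K j, ∑ i : Fin K, g ^ (j + 1) *
    ((V u t - W u t) ^ 2 * V (i :: u) t - V u t * (V u t - W u t) * (V (i :: u) t - W (i :: u) t))

/-- the boundary term -/
noncomputable def bb {K : ℕ} (g : ℝ) (V W : Nd K → ℝ → ℝ) (N : ℕ) (t : ℝ) : ℝ :=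
  ∑ u ∈ lev K N, g ^ (N + 1) * ((V u t - W u t) * (V u t * ch V u t - W u t * ch W u t))

theorem alg {K : ℕ} {L : ℝ} (hL : L ≠ 0) (g k : ℝ) (F V W : Nd K → ℝ → ℝ) (t : ℝ) (N : ℕ) :
    sm N (fun w => (g / L) ^ w.length *
      (2 * (V w t - W w t) * (vf L g k F V w t - vf L g k F W w t))) =
    - 2 * k * PD g (df V W) N t - 2 * (∑ j ∈ Finset.range N, rr g V W j t) - 2 * bb g V W N t := by
  induction N with
  | zero =>
    simp only [sm, PD, zero_add, Finset.sum_range_one, Finset.sum_range_zero, bb, sum_lev_zero,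
      List.length_nil, pow_zero, vf, df, pr_nil]
    ring
  | succ N ih =>
    have e1 : sm (N + 1) (fun w => (g / L) ^ w.length *
        (2 * (V w t - W w t) * (vf L g k F V w t - vf L g k F W w t))) =
        sm N (fun w => (g / L) ^ w.length *
        (2 * (V w t - W w t) * (vf L g k F V w t - vf L g k F W w t))) +
        ∑ w ∈ lev K (N + 1), (g / L) ^ w.length *
        (2 * (V w t - W w t) * (vf L g k F V w t - vf L g k F W w t)) := by
      simp only [sm]
      rw [Finset.sum_range_succ _ (N + 1)]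
    have e2 : PD g (df V W) (N + 1) t = PD g (df V W) N t + lv g (df V W) (N + 1) t := by
      rw [PD_eq, PD_eq, Finset.sum_range_succ _ (N + 1)]
    rw [e1, ih, e2, Finset.sum_range_succ _ N]
    have e3 : ∑ w ∈ lev K (N + 1), (g / L) ^ w.length *
        (2 * (V w t - W w t) * (vf L g k F V w t - vf L g k F W w t)) - 2 * bb g V W N t =
        - 2 * k * lv g (df V W) (N + 1) t - 2 * rr g V W N t - 2 * bb g V W (N + 1) t := by
      rw [sum_lev_succ, bb, bb, lv, rr, sum_lev_succ, sum_lev_succ]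
      simp only [Finset.mul_sum, ← Finset.sum_sub_distrib]
      refine Finset.sum_congr rfl fun u hu => ?_
      have hu' := (mem_lev N u).1 hu
      have e4 : 2 * (g ^ (N + 1) * ((V u t - W u t) * (V u t * ch V u t - W u t * ch W u t))) =
          ∑ i : Fin K, 2 * (g ^ (N + 1) * ((V u t - W u t) *
            (V u t * V (i :: u) t - W u t * W (i :: u) t))) := by
        simp only [ch, Finset.mul_sum, ← Finset.sum_sub_distrib]
      rw [e4, ← Finset.sum_sub_distrib]
      refine Finset.sum_congr rfl fun i _ => ?_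
      have e5 : (g / L) ^ (N + 1) * L ^ (N + 1) = g ^ (N + 1) := by
        rw [div_pow]; field_simp
      simp only [vf, pr_cons, List.length_cons, hu', df]
      have e6 : (g / L) ^ (N + 1) * (2 * (V (i :: u) t - W (i :: u) t) *
          (L ^ (N + 1) * (V u t ^ 2 - V (i :: u) t * (g * ch V (i :: u) t + k)) + F (i :: u) t -
          (L ^ (N + 1) * (W u t ^ 2 - W (i :: u) t * (g * ch W (i :: u) t + k)) + F (i :: u) t))) =
          ((g / L) ^ (N + 1) * L ^ (N + 1)) * (2 * (V (i :: u) t - W (i :: u) t) *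
          ((V u t ^ 2 - V (i :: u) t * (g * ch V (i :: u) t + k)) -
          (W u t ^ 2 - W (i :: u) t * (g * ch W (i :: u) t + k)))) := by ring
      rw [e6, e5]
      ring
    linarith [e3]

theorem two_mul_abs_le (a b : ℝ) : |a * b| ≤ (a ^ 2 + b ^ 2) / 2 := by
  rw [abs_le]
  constructor <;> nlinarith [sq_nonneg (a + b), sq_nonneg (a - b)]

theorem rr_le {K : ℕ} {g : ℝ} (hg : 0 ≤ g) (V W : Nd K → ℝ → ℝ) (j : ℕ) (t δ : ℝ)
    (h1 : ∀ w ∈ lev K j, |V w t| ≤ δ) (h2 : ∀ w ∈ lev K (j + 1), |V w t| ≤ δ) :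
    -2 * rr g V W j t ≤ δ * (3 * K * g * lv g (df V W) j t + lv g (df V W) (j + 1) t) := by
  have e1 : δ * (3 * K * g * lv g (df V W) j t + lv g (df V W) (j + 1) t) =
      ∑ u ∈ lev K j, ∑ i : Fin K, g ^ (j + 1) * (δ * (3 * (V u t - W u t) ^ 2 +
        (V (i :: u) t - W (i :: u) t) ^ 2)) := by
    rw [lv, lv, sum_lev_succ, mul_add, Finset.mul_sum, Finset.mul_sum, Finset.mul_sum,
      ← Finset.sum_add_distrib]
    refine Finset.sum_congr rfl fun u _ => ?_
    simp only [df, mul_add, Finset.sum_add_distrib, Finset.mul_sum, Finset.sum_const,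
      Finset.card_univ, Fintype.card_fin, nsmul_eq_mul]
    congr 1
    · ring
    · exact Finset.sum_congr rfl fun i _ => by ring
  rw [e1, rr, Finset.mul_sum]
  refine Finset.sum_le_sum fun u hu => ?_
  rw [Finset.mul_sum]
  refine Finset.sum_le_sum fun i _ => ?_
  have hu1 := h1 u hu
  have hc1 := h2 (i :: u) ((mem_lev _ _).2 (by rw [List.length_cons, (mem_lev _ _).1 hu]))
  have hδ : 0 ≤ δ := (abs_nonneg _).trans hu1
  have hgj : 0 ≤ g ^ (j + 1) := by positivity
  have h3 : -2 * ((V u t - W u t) ^ 2 * V (i :: u) t -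
      V u t * (V u t - W u t) * (V (i :: u) t - W (i :: u) t)) ≤
      δ * (3 * (V u t - W u t) ^ 2 + (V (i :: u) t - W (i :: u) t) ^ 2) := by
    set D := V u t - W u t
    set Dc := V (i :: u) t - W (i :: u) t
    have a1 : -(D ^ 2 * V (i :: u) t) ≤ D ^ 2 * δ := by
      have := mul_le_mul_of_nonneg_left ((neg_le_abs (V (i :: u) t)).trans hc1) (sq_nonneg D)
      linarith
    have a2 : V u t * D * Dc ≤ δ * ((D ^ 2 + Dc ^ 2) / 2) := by
      have b1 : V u t * D * Dc ≤ |V u t| * |D * Dc| := by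
        rw [← abs_mul, ← mul_assoc]; exact le_abs_self _
      exact b1.trans (mul_le_mul hu1 (two_mul_abs_le _ _) (abs_nonneg _) hδ)
    nlinarith
  calc -2 * (g ^ (j + 1) * ((V u t - W u t) ^ 2 * V (i :: u) t -
      V u t * (V u t - W u t) * (V (i :: u) t - W (i :: u) t)))
      = g ^ (j + 1) * (-2 * ((V u t - W u t) ^ 2 * V (i :: u) t -
      V u t * (V u t - W u t) * (V (i :: u) t - W (i :: u) t))) := by ring
    _ ≤ _ := mul_le_mul_of_nonneg_left h3 hgj

theorem bb_le {K : ℕ} {g : ℝ} (hg : 0 ≤ g) (V W : Nd K → ℝ → ℝ) (N : ℕ) (t M : ℝ)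
    (h1 : ∀ w, |V w t| ≤ M) :
    -2 * bb g V W N t ≤ -2 * fl g W N t + 2 * M * (K * g * (lv g V N t + lv g W N t) +
      (lv g V (N + 1) t + lv g W (N + 1) t)) := by
  have hM : 0 ≤ M := (abs_nonneg _).trans (h1 [])
  have e1 : 2 * M * (K * g * (lv g V N t + lv g W N t) +
      (lv g V (N + 1) t + lv g W (N + 1) t)) =
      ∑ u ∈ lev K N, ∑ i : Fin K, g ^ (N + 1) * (2 * M * (V u t ^ 2 + W u t ^ 2 +
        (V (i :: u) t ^ 2 + W (i :: u) t ^ 2))) := by
    simp only [lv, sum_lev_succ]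
    rw [← Finset.sum_add_distrib, ← Finset.sum_add_distrib, mul_add, Finset.mul_sum,
      Finset.mul_sum, Finset.mul_sum, ← Finset.sum_add_distrib]
    refine Finset.sum_congr rfl fun u _ => ?_
    rw [← Finset.sum_add_distrib]
    simp only [mul_add, Finset.sum_add_distrib, Finset.mul_sum, Finset.sum_const,
      Finset.card_univ, Fintype.card_fin, nsmul_eq_mul]
    congr 1
    · ring
    · congr 1
      · exact Finset.sum_congr rfl fun i _ => by ring
      · exact Finset.sum_congr rfl fun i _ => by ring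
  have e2 : -2 * bb g V W N t - -2 * fl g W N t = ∑ u ∈ lev K N, ∑ i : Fin K, g ^ (N + 1) *
      (2 * (V u t * W u t * W (i :: u) t + V u t * W u t * V (i :: u) t -
        V u t ^ 2 * V (i :: u) t)) := by
    rw [bb, fl, Finset.mul_sum, Finset.mul_sum, Finset.mul_sum, ← Finset.sum_sub_distrib]
    refine Finset.sum_congr rfl fun u _ => ?_
    simp only [ch, Finset.mul_sum, ← Finset.sum_sub_distrib]
    refine Finset.sum_congr rfl fun i _ => ?_
    ring
  have e3 : -2 * bb g V W N t - -2 * fl g W N t ≤ 2 * M * (K * g * (lv g V N t + lv g W N t) +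
      (lv g V (N + 1) t + lv g W (N + 1) t)) := by
    rw [e1, e2]
    refine Finset.sum_le_sum fun u hu => Finset.sum_le_sum fun i _ => ?_
    refine mul_le_mul_of_nonneg_left ?_ (by positivity)
    have b : ∀ x y : ℝ, V u t * (x * y) ≤ M * ((x ^ 2 + y ^ 2) / 2) := by
      intro x y
      have b1 : V u t * (x * y) ≤ |V u t| * |x * y| := by
        rw [← abs_mul]; exact le_abs_self _
      exact b1.trans (mul_le_mul (h1 u) (two_mul_abs_le _ _) (abs_nonneg _) hM)
    have b1 := b (W u t) (W (i :: u) t)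
    have b2 := b (W u t) (V (i :: u) t)
    have b3 := b (-V u t) (V (i :: u) t)
    have p1 := mul_nonneg hM (sq_nonneg (V u t))
    have p2 := mul_nonneg hM (sq_nonneg (W (i :: u) t))
    nlinarith
  linarith

/-- the pointwise inequality -/
theorem pointwise {K : ℕ} {L g k M ε : ℝ} (hL : 1 ≤ L) (hg : 1 ≤ g) (hε : 0 ≤ ε)
    (hε' : (3 * K * g + 1) * ε ≤ 2 * k)
    (F V W : Nd K → ℝ → ℝ) (t : ℝ) (m N : ℕ) (h1 : ∀ w, |V w t| ≤ M)
    (h2 : ∀ w, m ≤ w.length → |V w t| ≤ ε) :
    sm N (fun w => (g / L) ^ w.length *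
      (2 * (V w t - W w t) * (vf L g k F V w t - vf L g k F W w t))) ≤
    (3 * K * g + 1) * (M * L ^ m) * PE L g (df V W) N t + (-2 * fl g W N t + 2 * M *
      (K * g * (lv g V N t + lv g W N t) + (lv g V (N + 1) t + lv g W (N + 1) t))) := by
  have hM : 0 ≤ M := (abs_nonneg _).trans (h1 [])
  have hg0 : 0 ≤ g := by linarith
  have hL0 : 0 < L := by linarith
  rw [alg (by linarith) g k F V W t N]
  have h3 := bb_le hg0 V W N t M h1
  set a : ℕ → ℝ := fun j => ε * lv g (df V W) j t +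
    M * L ^ m * ((L ^ j)⁻¹ * lv g (df V W) j t) with ha
  have hLj : ∀ j, 0 < L ^ j := fun j => by positivity
  have ha0 : ∀ j, 0 ≤ a j := by
    intro j
    have := lv_nonneg hg0 (df V W) j t
    have := hLj j
    positivity
  have h4 : ∀ j, -2 * rr g V W j t ≤ 3 * K * g * a j + a (j + 1) := by
    intro j
    have l1 := lv_nonneg hg0 (df V W) j t
    have l2 := lv_nonneg hg0 (df V W) (j + 1) t
    have q1 : 0 ≤ M * L ^ m * ((L ^ j)⁻¹ * lv g (df V W) j t) := by
      have := hLj j; positivity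
    have q2 : 0 ≤ M * L ^ m * ((L ^ (j + 1))⁻¹ * lv g (df V W) (j + 1) t) := by
      have := hLj (j + 1); positivity
    have hK : 0 ≤ 3 * (K : ℝ) * g := by positivity
    rcases le_or_gt m j with hj | hj
    · have h5 := rr_le hg0 V W j t ε (fun w hw => h2 w (by rw [(mem_lev _ _).1 hw]; exact hj))
        (fun w hw => h2 w (by rw [(mem_lev _ _).1 hw]; omega))
      refine h5.trans ?_
      simp only [ha]
      have := mul_nonneg hK q1
      nlinarith
    · have h5 := rr_le hg0 V W j t M (fun w _ => h1 w) (fun w _ => h1 w)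
      refine h5.trans ?_
      have r1 : ∀ n, n ≤ m → M * lv g (df V W) n t ≤
          M * L ^ m * ((L ^ n)⁻¹ * lv g (df V W) n t) := by
        intro n hn
        have l3 := lv_nonneg hg0 (df V W) n t
        have s1 : 1 ≤ L ^ m * (L ^ n)⁻¹ := by
          rw [← div_eq_mul_inv, one_le_div (hLj n)]
          exact pow_le_pow_right₀ hL hn
        calc M * lv g (df V W) n t = M * lv g (df V W) n t * 1 := by ring
          _ ≤ M * lv g (df V W) n t * (L ^ m * (L ^ n)⁻¹) :=
            mul_le_mul_of_nonneg_left s1 (by positivity)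
          _ = _ := by ring
      have r2 := r1 j hj.le
      have r3 := r1 (j + 1) hj
      have r4 := mul_le_mul_of_nonneg_left r2 hK
      have r5 : 0 ≤ 3 * (K : ℝ) * g * (ε * lv g (df V W) j t) := by positivity
      have r6 : 0 ≤ ε * lv g (df V W) (j + 1) t := by positivity
      simp only [ha]
      nlinarith
  have h5 : -2 * (∑ j ∈ Finset.range N, rr g V W j t) ≤
      (3 * K * g + 1) * ∑ j ∈ Finset.range (N + 1), a j := by
    rw [Finset.mul_sum]
    refine (Finset.sum_le_sum fun j _ => h4 j).trans ?_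
    rw [Finset.sum_add_distrib, ← Finset.mul_sum]
    have t1 : ∑ j ∈ Finset.range N, a j ≤ ∑ j ∈ Finset.range (N + 1), a j := by
      rw [Finset.sum_range_succ]; linarith [ha0 N]
    have t2 : ∑ j ∈ Finset.range N, a (j + 1) ≤ ∑ j ∈ Finset.range (N + 1), a j := by
      rw [Finset.sum_range_succ']; linarith [ha0 0]
    have hK : 0 ≤ 3 * (K : ℝ) * g := by positivity
    nlinarith [mul_le_mul_of_nonneg_left t1 hK]
  have h6 : ∑ j ∈ Finset.range (N + 1), a j = ε * PD g (df V W) N t +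
      M * L ^ m * PE L g (df V W) N t := by
    rw [PD_eq, PE_eq, Finset.mul_sum, Finset.mul_sum, ← Finset.sum_add_distrib]
  have h7 : 0 ≤ PD g (df V W) N t := by
    rw [PD_eq]; exact Finset.sum_nonneg fun j _ => lv_nonneg hg0 _ _ _
  rw [h6] at h5
  have h8 := mul_le_mul_of_nonneg_right hε' h7
  nlinarith

end Pool.Agent.Q257.DT
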